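import Pool.Agent.K4H40.NS.Spec

set_option autoImplicit false

namespace Pool.Agent.K4H40.NS

open MvPolynomial Module

namespace D4Aux

theorem finrank_range_flip {K V W : Type*} [Field K] [AddCommGroup V] [Module K V]
    [AddCommGroup W] [Module K W] [FiniteDimensional K V] [FiniteDimensional K W]
    (B : W →ₗ[K] Module.Dual K V) :
    finrank K (LinearMap.range (LinearMap.flip B)) = finrank K (LinearMap.range B) := by
  have e : (LinearMap.flip B : V →ₗ[K] Module.Dual K W) =
      B.dualMap ∘ₗ (Module.evalEquiv K V).toLinearMap := by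
    ext v w
    simp
  rw [e, LinearMap.range_comp, LinearEquiv.range, Submodule.map_top,
    LinearMap.finrank_range_dualMap_eq_finrank_range]

theorem pairing {K V W : Type*} [Field K] [AddCommGroup V] [Module K V]
    [AddCommGroup W] [Module K W] [FiniteDimensional K V] [FiniteDimensional K W]
    (B : W →ₗ[K] V →ₗ[K] K) :
    finrank K W + finrank K (LinearMap.ker B.flip) = finrank K V + finrank K (LinearMap.ker B) := by
  have h1 := LinearMap.finrank_range_add_finrank_ker B
  have h2 := LinearMap.finrank_range_add_finrank_ker B.flip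
  have h3 : finrank K (LinearMap.range B.flip) = finrank K (LinearMap.range B) :=
    finrank_range_flip B
  omega

theorem count {n : ℕ} {K : Type} [Field K] (L : R n K →ₗ[K] K) (A C A0 C0 : Submodule K (R n K))
    [FiniteDimensional K A] [FiniteDimensional K C] (hA : A0 ≤ A) (hC : C0 ≤ C)
    (h1 : ∀ a ∈ A, a ∈ A0 ↔ ∀ c ∈ C, L (a * c) = 0)
    (h2 : ∀ c ∈ C, c ∈ C0 ↔ ∀ a ∈ A, L (a * c) = 0) :
    finrank K A + finrank K C0 = finrank K C + finrank K A0 := by
  obtain ⟨B, happ⟩ : ∃ B : A →ₗ[K] C →ₗ[K] K, ∀ (a : A) (c : C), B a c = L (a.1 * c.1) :=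
    ⟨((LinearMap.mul K (R n K)).compr₂ L).domRestrict₁₂ A C, fun a c => rfl⟩
  have k1 : LinearMap.ker B = A0.comap A.subtype := by
    ext a
    rw [LinearMap.mem_ker, Submodule.mem_comap]
    constructor
    · intro h
      refine (h1 a.1 a.2).2 fun c hc => ?_
      rw [← happ a ⟨c, hc⟩, h]
      rfl
    · intro h
      ext c
      rw [happ]
      exact (h1 a.1 a.2).1 h c.1 c.2
  have k2 : LinearMap.ker B.flip = C0.comap C.subtype := by
    ext c
    rw [LinearMap.mem_ker, Submodule.mem_comap]
    constructor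
    · intro h
      refine (h2 c.1 c.2).2 fun a ha => ?_
      rw [← happ ⟨a, ha⟩ c, ← LinearMap.flip_apply, h]
      rfl
    · intro h
      ext a
      rw [LinearMap.flip_apply, happ]
      exact (h2 c.1 c.2).1 h a.1 a.2
  have e1 : finrank K (LinearMap.ker B) = finrank K A0 := by
    rw [k1]
    exact (Submodule.comapSubtypeEquivOfLe hA).finrank_eq
  have e2 : finrank K (LinearMap.ker B.flip) = finrank K C0 := by
    rw [k2]
    exact (Submodule.comapSubtypeEquivOfLe hC).finrank_eq
  have := pairing B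
  omega

end D4Aux

open D4Aux in
theorem d4 : StD4 := by
  intro n k K _ I s hk hJ
  haveI f1 : FiniteDimensional K (hs n K k) := Module.Finite.iff_fg.2 (homogeneousSubmodule_fg _ _ _)
  haveI f2 : FiniteDimensional K (hs n K (k + 1)) :=
    Module.Finite.iff_fg.2 (homogeneousSubmodule_fg _ _ _)
  have hJdk : s.Jd k ≤ hs n K k := inf_le_right
  have hω : s.ω.IsHomogeneous 1 := (mem_homogeneousSubmodule _ _).1 s.ω_lin
  have hV : s.V ≤ hs n K k := by
    unfold Sys.V
    refine sup_le ?_ (hJ ▸ hJdk)
    rintro _ ⟨c, hc, rfl⟩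
    rw [LinearMap.mulLeft_apply]
    have hc' : c.IsHomogeneous (k - 1) := (mem_homogeneousSubmodule _ _).1 hc
    have := hω.mul hc'
    rw [show 1 + (k - 1) = k by omega] at this
    exact (mem_homogeneousSubmodule _ _).2 this
  haveI f3 : FiniteDimensional K s.V := Submodule.finiteDimensional_of_le hV
  have hz : ∀ f ∈ s.J, s.L f = 0 := s.L_zero
  -- right kernel
  have hr : ∀ c ∈ hs n K k, c ∈ s.Jd k ↔ ∀ a ∈ hs n K (k + 1), s.L (a * c) = 0 := by
    intro c hc
    constructor
    · intro h a _
      exact hz _ (Ideal.mul_mem_left _ _ h.1)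
    · intro h
      refine ⟨?_, hc⟩
      refine s.duality k (by omega) c hc fun g hg => ?_
      rw [show 2 * k + 1 - k = k + 1 by omega] at hg
      rw [mul_comm]
      exact h g hg
  have hl : ∀ a ∈ hs n K (k + 1), a ∈ s.Jd (k + 1) ↔ ∀ c ∈ hs n K k, s.L (a * c) = 0 := by
    intro a ha
    constructor
    · intro h c _
      exact hz _ (Ideal.mul_mem_right _ _ h.1)
    · intro h
      refine ⟨?_, ha⟩
      refine s.duality (k + 1) (by omega) a ha fun g hg => ?_
      rw [show 2 * k + 1 - (k + 1) = k by omega] at hg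
      exact h g hg
  have hu : ∀ a ∈ hs n K (k + 1), a ∈ s.U ↔ ∀ v ∈ s.V, s.L (a * v) = 0 := by
    intro a ha
    constructor
    · intro h v hv
      have hωa : s.ω * a ∈ s.J := h.1
      unfold Sys.V at hv
      obtain ⟨v1, ⟨c, hc, rfl⟩, v2, hv2, rfl⟩ := Submodule.mem_sup.1 hv
      rw [mul_add, map_add, LinearMap.mulLeft_apply]
      have z1 : s.L (a * (s.ω * c)) = 0 := by
        rw [show a * (s.ω * c) = (s.ω * a) * c by ring]
        exact hz _ (Ideal.mul_mem_right _ _ hωa)
      have z2 : s.L (a * v2) = 0 := by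
        rw [← hJ] at hv2
        exact hz _ (Ideal.mul_mem_left _ _ hv2.1)
      rw [z1, z2, add_zero]
    · intro h
      refine ⟨?_, ha⟩
      show s.ω * a ∈ s.J
      have ha' : a.IsHomogeneous (k + 1) := (mem_homogeneousSubmodule _ _).1 ha
      have hωa := hω.mul ha'
      rw [show 1 + (k + 1) = k + 2 by omega] at hωa
      refine s.duality (k + 2) (by omega) (s.ω * a) ((mem_homogeneousSubmodule _ _).2 hωa) fun g hg => ?_
      rw [show 2 * k + 1 - (k + 2) = k - 1 by omega] at hg
      rw [show s.ω * a * g = a * (s.ω * g) by ring]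
      refine h _ ?_
      unfold Sys.V
      exact Submodule.mem_sup_left ⟨g, hg, rfl⟩
  have c1 := count s.L (hs n K (k + 1)) (hs n K k) (s.Jd (k + 1)) (s.Jd k) inf_le_right hJdk hl hr
  have c2 := count s.L (hs n K (k + 1)) s.V s.U (s.Jd k) inf_le_right
    (by rw [hJ]; exact le_sup_right) hu (fun c hc => hr c (hV hc))
  omega

end Pool.Agent.K4H40.NS
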